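import Pool.Agent.H.MP_3933ef_co.Defs

set_option autoImplicit false

namespace Pool.Agent.Results.MP_3933ef_co.No

open Pool.Agent.H.MP_3933ef_co

def t0 : Fin 9 → Fin 4 := ![0, 1, 2, 0, 0, 1, 1, 2, 2]
def h0 : Fin 9 → Fin 4 := ![1, 2, 0, 3, 3, 3, 3, 3, 3]

theorem sum4 (J : Finset (Fin 9)) :
    ((outA t0 h0 {0} ∩ J).card + (inA t0 h0 {0} \ J).card) +
    ((outA t0 h0 {1} ∩ J).card + (inA t0 h0 {1} \ J).card) +
    ((outA t0 h0 {2} ∩ J).card + (inA t0 h0 {2} \ J).card) +
    (Jᶜ ∩ outA t0 h0 {0, 1, 2}).card = 9 := by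
  have e1 : outA t0 h0 {0} = {0, 3, 4} := by decide
  have e2 : outA t0 h0 {1} = {1, 5, 6} := by decide
  have e3 : outA t0 h0 {2} = {2, 7, 8} := by decide
  have e4 : inA t0 h0 {0} = {2} := by decide
  have e5 : inA t0 h0 {1} = {0} := by decide
  have e6 : inA t0 h0 {2} = {1} := by decide
  have e7 : outA t0 h0 {0, 1, 2} = {3, 4, 5, 6, 7, 8} := by decide
  rw [e1, e2, e3, e4, e5, e6, e7]
  have a : ∀ S : Finset (Fin 9), (S ∩ J).card = ∑ i ∈ S, if i ∈ J then 1 else 0 := fun S => by
    rw [← Finset.filter_mem_eq_inter, Finset.card_filter]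
  have b : ∀ S : Finset (Fin 9), (S \ J).card = ∑ i ∈ S, if i ∈ J then 0 else 1 := fun S => by
    rw [Finset.sdiff_eq_filter, Finset.card_filter]; simp only [ite_not]
  have c : ∀ S : Finset (Fin 9), Jᶜ ∩ S = S \ J := fun S => by ext; simp; tauto
  rw [c, a, a, a, b, b, b, b]
  have d : ∀ i : Fin 9, (if i ∈ J then 1 else 0) + (if i ∈ J then 0 else 1) = 1 := fun i => by
    split_ifs <;> rfl
  rw [Finset.sum_insert (by decide), Finset.sum_insert (by decide), Finset.sum_singleton,
    Finset.sum_singleton,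
    Finset.sum_insert (by decide), Finset.sum_insert (by decide), Finset.sum_singleton,
    Finset.sum_singleton,
    Finset.sum_insert (by decide), Finset.sum_insert (by decide), Finset.sum_singleton,
    Finset.sum_singleton,
    Finset.sum_insert (by decide), Finset.sum_insert (by decide), Finset.sum_insert (by decide),
    Finset.sum_insert (by decide), Finset.sum_insert (by decide), Finset.sum_singleton]
  have := d 0; have := d 1; have := d 2; have := d 3; have := d 4; have := d 5; have := d 6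
  have := d 7; have := d 8
  omega

theorem result : ∃ (τ k : ℕ) (t h : Fin 9 → Fin 4), 1 ≤ k ∧ k + 1 ≤ τ ∧ (∀ a, t a ≠ h a) ∧
    EdgeConn t h (2 * k) ∧ (∀ C, IsDicut t h C → τ ≤ C.card) ∧
    ¬ ∃ J J' : Finset (Fin 9), J ∪ J' = Finset.univ ∧ Disjoint J J' ∧
      Flip t h k J ∧ Dijoin t h (τ - k) J' := by
  refine ⟨6, 2, t0, h0, by decide, by decide, by decide, by unfold EdgeConn; decide, ?_, ?_⟩
  · rintro C ⟨U, h1, h2, h3, rfl⟩
    revert U
    decide
  · rintro ⟨J, J', h1, h2, h3, h4⟩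
    have e : J' = Jᶜ := by
      ext a
      have := Finset.mem_union.1 (h1 ▸ Finset.mem_univ a : a ∈ J ∪ J')
      have : a ∈ J → a ∉ J' := fun h => Finset.disjoint_left.1 h2 h
      simp only [Finset.mem_compl]; tauto
    subst e
    have a0 := h3 {0} (by decide) (by decide)
    have a1 := h3 {1} (by decide) (by decide)
    have a2 := h3 {2} (by decide) (by decide)
    have a3 := h4 _ ⟨{0, 1, 2}, by decide, by decide, by decide, rfl⟩
    have := sum4 J
    omega

end Pool.Agent.Results.MP_3933ef_co.No
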